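import Pool.Agent.Work.MP_fcea8e_co.Broom.DB

/-!
The numbers do not change under isomorphisms.
-/

set_option autoImplicit false

namespace Pool.Agent.Work.MP_fcea8e_co.Broom

open Finset Pool.Agent.Work.MP_fcea8e_co.Dom

variable {κ κ' : Type} {T : Digraph κ} {T' : Digraph κ'}

theorem contains_iso (e : T.Adj ≃r T'.Adj) {V : Type} (G : Digraph V) :
    Contains T G ↔ Contains T' G := by
  constructor
  · rintro ⟨f, hf, hG⟩
    refine ⟨fun x => f (e.symm x), hf.comp e.symm.injective, fun a b hab => hG _ _ ?_⟩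
    exact e.symm.map_rel_iff.2 hab
  · rintro ⟨f, hf, hG⟩
    exact ⟨fun x => f (e x), hf.comp e.injective, fun a b hab => hG _ _ (e.map_rel_iff.2 hab)⟩

theorem tNum_iso (e : T.Adj ≃r T'.Adj) : tNum T = tNum T' := by
  rw [tNum, tNum]
  simp only [contains_iso e]

theorem cNum_iso (e : T.Adj ≃r T'.Adj) : cNum T = cNum T' := by
  rw [cNum, cNum]
  simp only [contains_iso e]

end Pool.Agent.Work.MP_fcea8e_co.Broom
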