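import Pool.Agent.Work.MP_fcea8e_co.Broom.Med
import Pool.Agent.Work.MP_fcea8e_co.Dom.ListCol
import Pool.Agent.Work.MP_fcea8e_co.Dom.Pull
import Pool.Agent.Work.MP_fcea8e_co.Dom.Path

/-!
Critical digraphs, greedy colourings, and the walk between good vertices.
-/

set_option autoImplicit false

namespace Pool.Agent.Work.MP_fcea8e_co.Broom

open Finset Pool.Agent.Work.MP_fcea8e_co.Dom

open Classical in
/-- greedy colouring -/
theorem greedy {V : Type} {H : V → V → Prop} (hs : ∀ x y, H x y → H y x) (hi : ∀ x, ¬ H x x)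
    {d : ℕ} (S : Finset V)
    (h : ∀ S', S' ⊆ S → S'.Nonempty → ∃ x ∈ S', (S'.filter (fun y => H x y)).card ≤ d) :
    ∃ c : V → ℕ, (∀ x ∈ S, c x < d + 1) ∧ ∀ x ∈ S, ∀ y ∈ S, H x y → c x ≠ c y := by
  induction S using Finset.strongInduction with
  | H S ih =>
    rcases S.eq_empty_or_nonempty with h0 | hne
    · subst h0
      exact ⟨fun _ => 0, by simp, by simp⟩
    · obtain ⟨x, hxS, hx⟩ := h S (Subset.refl _) hne
      obtain ⟨c, hc1, hc2⟩ := ih (S.erase x) (erase_ssubset hxS) (fun S' hS' hne' =>
        h S' (hS'.trans (erase_subset _ _)) hne')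
      have hused : ((S.filter (fun y => H x y)).image c).card < (range (d + 1)).card := by
        have k1 := card_image_le (s := S.filter (fun y => H x y)) (f := c)
        rw [card_range]
        omega
      obtain ⟨γ, hγ1, hγ2⟩ := exists_mem_notMem_of_card_lt_card hused
      rw [mem_range] at hγ1
      refine ⟨Function.update c x γ, ?_, ?_⟩
      · intro y hy
        by_cases hyx : y = x
        · rw [hyx, Function.update_self]
          exact hγ1
        · rw [Function.update_of_ne hyx]
          exact hc1 y (mem_erase.2 ⟨hyx, hy⟩)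
      · intro y hy z hz hyz
        by_cases hyx : y = x
        · have hzx : z ≠ x := by
            intro hzx
            rw [hyx, hzx] at hyz
            exact hi _ hyz
          rw [hyx, Function.update_self, Function.update_of_ne hzx]
          rw [hyx] at hyz
          intro h2
          exact hγ2 (mem_image.2 ⟨z, mem_filter.2 ⟨hz, hyz⟩, h2.symm⟩)
        · by_cases hzx : z = x
          · rw [hzx, Function.update_self, Function.update_of_ne hyx]
            rw [hzx] at hyz
            intro h2
            exact hγ2 (mem_image.2 ⟨y, mem_filter.2 ⟨hy, hs _ _ hyz⟩, h2⟩)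
          · rw [Function.update_of_ne hyx, Function.update_of_ne hzx]
            exact hc2 y (mem_erase.2 ⟨hyx, hy⟩) z (mem_erase.2 ⟨hzx, hz⟩) hyz

/-- a subdigraph which is not `k`-colourable and in which all vertices have degree at least `k` -/
theorem exists_critical {V : Type} {E : V → V → Prop} [Fintype V] (hE : Asym E) {k : ℕ}
    (h : ¬ KC E k) : ∃ X : Finset V, ¬ KC (fun a b : {x : V // x ∈ X} => E a b) k ∧
      ∀ x : {x : V // x ∈ X}, k ≤ (outs (fun a b : {x : V // x ∈ X} => E a b) univ x).card +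
        (ins (fun a b : {x : V // x ∈ X} => E a b) univ x).card := by
  classical
  obtain ⟨H, hH⟩ : ∃ H : V → V → Prop, ∀ x y, H x y ↔ (E x y ∨ E y x) :=
    ⟨fun x y => E x y ∨ E y x, fun _ _ => Iff.rfl⟩
  have hs : ∀ x y, H x y → H y x := fun x y hxy => (hH _ _).2 ((hH _ _).1 hxy).symm
  have hi : ∀ x, ¬ H x x := by
    intro x hx
    rcases (hH _ _).1 hx with h1 | h1 <;> exact hE _ _ h1 h1
  have hnc : ¬ Col H (fun _ => range k) univ := by
    rintro ⟨c, hc1, hc2⟩
    refine h ⟨c, fun x => mem_range.1 (hc1 x (mem_univ _)), fun x y hxy => ?_⟩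
    exact hc2 x (mem_univ _) y (mem_univ _) ((hH _ _).2 (Or.inl hxy))
  obtain ⟨X, _, hX⟩ := exists_crit hnc
  refine ⟨X, ?_, ?_⟩
  · rintro ⟨c, hc1, hc2⟩
    apply hX.1
    refine ⟨fun x => if hx : x ∈ X then c ⟨x, hx⟩ else 0, ?_, ?_⟩
    · intro x hx
      simp only [hx, dite_true, mem_range]
      exact hc1 _
    · intro x hx y hy hxy
      simp only [hx, hy, dite_true]
      rcases (hH _ _).1 hxy with h1 | h1
      · exact hc2 ⟨x, hx⟩ ⟨y, hy⟩ h1
      · exact (hc2 ⟨y, hy⟩ ⟨x, hx⟩ h1).symm
  · rintro ⟨x, hx⟩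
    have h1 := crit_deg hs hi hX hx
    rw [card_range] at h1
    have h2 : X.filter (fun y => H x y) ⊆
        (outs (fun a b : {x : V // x ∈ X} => E a b) univ ⟨x, hx⟩ ∪
          ins (fun a b : {x : V // x ∈ X} => E a b) univ ⟨x, hx⟩).image Subtype.val := by
      intro y hy
      obtain ⟨hyX, hxy⟩ := mem_filter.1 hy
      refine mem_image.2 ⟨⟨y, hyX⟩, ?_, rfl⟩
      rw [mem_union, outs, ins, mem_filter, mem_filter]
      rcases (hH _ _).1 hxy with h3 | h3
      · exact Or.inl ⟨mem_univ _, h3⟩
      · exact Or.inr ⟨mem_univ _, h3⟩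
    have h3 := (card_le_card h2).trans card_image_le
    exact h1.trans (h3.trans (card_union_le _ _))

section

variable {V : Type} [Fintype V] {E : V → V → Prop} {r : V → ℕ}

theorem deg_split (hE : Asym E) (h : Med E r) (x : V) :
    (outs E univ x).card + (ins E univ x).card ≤
      (LO E r x).card + (LI E r x).card + ((EO E r x).card + (EI E r x).card) := by
  classical
  have h1 : outs E univ x ⊆ LO E r x ∪ EO E r x := by
    intro y hy
    rw [outs, mem_filter] at hy
    rw [mem_union, LO, EO, mem_filter, mem_filter]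
    rcases Nat.lt_or_gt_of_ne (r_ne hE h hy.2) with h2 | h2
    · exact Or.inl ⟨mem_univ _, hy.2, h2⟩
    · exact Or.inr ⟨mem_univ _, hy.2, h2⟩
  have h2 : ins E univ x ⊆ LI E r x ∪ EI E r x := by
    intro y hy
    rw [ins, mem_filter] at hy
    rw [mem_union, LI, EI, mem_filter, mem_filter]
    rcases Nat.lt_or_gt_of_ne (r_ne hE h hy.2) with h2 | h2
    · exact Or.inr ⟨mem_univ _, hy.2, h2⟩
    · exact Or.inl ⟨mem_univ _, hy.2, h2⟩
  have h3 := (card_le_card h1).trans (card_union_le _ _)
  have h4 := (card_le_card h2).trans (card_union_le _ _)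
  omega

open Classical in
theorem col_late (hE : Asym E) (h : Med E r) (b : ℕ) :
    ∃ c : V → ℕ, (∀ x, (LO E r x).card < b → c x < max 1 (2 * b) - 1) ∧
      ∀ x y, (LO E r x).card < b → (LO E r y).card < b → E x y → c x ≠ c y := by
  rcases Nat.eq_zero_or_pos b with hb | hb
  · subst hb
    exact ⟨fun _ => 0, fun x hx => absurd hx (Nat.not_lt_zero _),
      fun x _ hx => absurd hx (Nat.not_lt_zero _)⟩
  · obtain ⟨S, hS⟩ : ∃ S : Finset V, ∀ x, x ∈ S ↔ (LO E r x).card < b :=
      ⟨univ.filter (fun x => (LO E r x).card < b), fun x => by simp⟩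
    obtain ⟨H, hH⟩ : ∃ H : V → V → Prop, ∀ x y, H x y ↔ (E x y ∨ E y x) :=
      ⟨fun x y => E x y ∨ E y x, fun _ _ => Iff.rfl⟩
    obtain ⟨c, hc1, hc2⟩ := greedy (H := H) (fun _ _ h => (hH _ _).2 ((hH _ _).1 h).symm)
      (fun x hx => by rcases (hH _ _).1 hx with hx | hx <;> exact hE _ _ hx hx) (d := 2 * (b - 1)) S (by
        intro S' hS' hne
        obtain ⟨x, hx, hmin⟩ := exists_min_image S' r hne
        refine ⟨x, hx, ?_⟩
        have h1 : S'.filter (fun y => H x y) ⊆ LO E r x ∪ LI E r x := by
          intro y hy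
          obtain ⟨hy1, hy2⟩ := mem_filter.1 hy
          have h3 := hmin y hy1
          rw [mem_union, LO, LI, mem_filter, mem_filter]
          rcases (hH _ _).1 hy2 with hy2 | hy2
          · have h4 := r_ne hE h hy2
            exact Or.inl ⟨mem_univ _, hy2, by omega⟩
          · have h4 := r_ne hE h hy2
            exact Or.inr ⟨mem_univ _, hy2, by omega⟩
        have h3 := (card_le_card h1).trans (card_union_le _ _)
        have h4 := LI_le_LO h x
        have h5 := (hS x).1 (hS' hx)
        omega)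
    refine ⟨c, fun x hx => ?_, fun x y hx hy hxy => ?_⟩
    · have := hc1 x ((hS x).2 hx)
      omega
    · exact hc2 x ((hS x).2 hx) y ((hS y).2 hy) ((hH _ _).2 (Or.inl hxy))

open Classical in
theorem col_early (hE : Asym E) (h : Med E r) (a : ℕ) :
    ∃ c : V → ℕ, (∀ x, (EI E r x).card < a → c x < max 1 (2 * a) - 1) ∧
      ∀ x y, (EI E r x).card < a → (EI E r y).card < a → E x y → c x ≠ c y := by
  rcases Nat.eq_zero_or_pos a with hb | hb
  · subst hb
    exact ⟨fun _ => 0, fun x hx => absurd hx (Nat.not_lt_zero _),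
      fun x _ hx => absurd hx (Nat.not_lt_zero _)⟩
  · obtain ⟨S, hS⟩ : ∃ S : Finset V, ∀ x, x ∈ S ↔ (EI E r x).card < a :=
      ⟨univ.filter (fun x => (EI E r x).card < a), fun x => by simp⟩
    obtain ⟨H, hH⟩ : ∃ H : V → V → Prop, ∀ x y, H x y ↔ (E x y ∨ E y x) :=
      ⟨fun x y => E x y ∨ E y x, fun _ _ => Iff.rfl⟩
    obtain ⟨c, hc1, hc2⟩ := greedy (H := H) (fun _ _ h => (hH _ _).2 ((hH _ _).1 h).symm)
      (fun x hx => by rcases (hH _ _).1 hx with hx | hx <;> exact hE _ _ hx hx) (d := 2 * (a - 1)) S (by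
        intro S' hS' hne
        obtain ⟨x, hx, hmax⟩ := exists_max_image S' r hne
        refine ⟨x, hx, ?_⟩
        have h1 : S'.filter (fun y => H x y) ⊆ EO E r x ∪ EI E r x := by
          intro y hy
          obtain ⟨hy1, hy2⟩ := mem_filter.1 hy
          have h3 := hmax y hy1
          rw [mem_union, EO, EI, mem_filter, mem_filter]
          rcases (hH _ _).1 hy2 with hy2 | hy2
          · have h4 := r_ne hE h hy2
            exact Or.inl ⟨mem_univ _, hy2, by omega⟩
          · have h4 := r_ne hE h hy2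
            exact Or.inr ⟨mem_univ _, hy2, by omega⟩
        have h3 := (card_le_card h1).trans (card_union_le _ _)
        have h4 := EO_le_EI h x
        have h5 := (hS x).1 (hS' hx)
        omega)
    refine ⟨c, fun x hx => ?_, fun x y hx hy hxy => ?_⟩
    · have := hc1 x ((hS x).2 hx)
      omega
    · exact hc2 x ((hS x).2 hx) y ((hS y).2 hy) ((hH _ _).2 (Or.inl hxy))

omit [Fintype V] in
/-- from multiples of `s` to `s` -/
theorem wk_mult {F : V → V → Prop} {P Q : V → Prop} (hPQ : ∀ x, ¬ Q x → P x) {s : ℕ} :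
    ∀ (k : ℕ) {u w : V}, Wk F (s * (k + 1)) u w → P u → Q w → ∃ u' w', P u' ∧ Q w' ∧ Wk F s u' w'
  | 0, u, w, h, hu, hw => ⟨u, w, hu, hw, by simpa using h⟩
  | k + 1, u, w, h, hu, hw => by
    have e : s * (k + 1 + 1) = s + s * (k + 1) := by ring
    rw [e] at h
    obtain ⟨c, h1, h2⟩ := wk_split h
    by_cases hc : Q c
    · exact ⟨u, c, hu, hc, h1⟩
    · exact wk_mult hPQ k h2 (hPQ c hc) hw

omit [Fintype V] in
theorem trans_lt {x y : V} (h : Relation.TransGen (Fw E r) x y) : r x < r y := by
  induction h with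
  | single h => exact h.2
  | tail _ hbc ih => exact ih.trans hbc.2

/-- the main lemma: a forward walk with exactly `s` arcs -/
theorem exists_walk (hE : Asym E) (h : Med E r) {a b s k : ℕ}
    (hk : k = (max 1 (2 * a) - 1) + (max 1 (2 * b) - 1) + s) (hK : ¬ KC E k)
    (hdeg : ∀ x, k ≤ (outs E univ x).card + (ins E univ x).card) :
    ∃ u w, a ≤ (EI E r u).card ∧ b ≤ (LO E r w).card ∧ Wk (Fw E r) s u w := by
  classical
  obtain ⟨c1, hc11, hc12⟩ := col_late hE h b
  obtain ⟨c2, hc21, hc22⟩ := col_early hE h a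
  obtain ⟨B, hB⟩ : ∃ B : Finset V, ∀ x, x ∈ B ↔ ((LO E r x).card < b ∨ (EI E r x).card < a) :=
    ⟨univ.filter (fun x => (LO E r x).card < b ∨ (EI E r x).card < a), fun x => by simp⟩
  have hdis : ∀ x, (LO E r x).card < b → ¬ (EI E r x).card < a := by
    intro x h1 h2
    have h3 := deg_split hE h x
    have h4 := LI_le_LO h x
    have h5 := EO_le_EI h x
    have h6 := hdeg x
    omega
  obtain ⟨c, hc⟩ : ∃ c : V → ℕ, c = fun x => if (LO E r x).card < b then c1 x else
    (max 1 (2 * b) - 1) + c2 x := ⟨_, rfl⟩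
  have hcb : ∀ x, (LO E r x).card < b → c x = c1 x := by
    intro x hx
    rw [hc]
    simp only [hx, if_true]
  have hca : ∀ x, (EI E r x).card < a → c x = (max 1 (2 * b) - 1) + c2 x := by
    intro x hx
    have hx' : ¬ (LO E r x).card < b := fun h' => hdis x h' hx
    rw [hc]
    simp only [hx', if_false]
  have hR : ¬ KC (fun x y : {x : V // x ∉ B} => E x y) s := by
    intro hkc
    apply hK
    have e : k = s + ((max 1 (2 * a) - 1) + (max 1 (2 * b) - 1)) := by omega
    rw [e]
    refine kc_union c ?_ ?_ hkc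
    · intro x hx
      rcases (hB x).1 hx with h1 | h1
      · rw [hcb x h1]
        have := hc11 x h1
        omega
      · rw [hca x h1]
        have := hc21 x h1
        omega
    · intro x hx y hy hxy
      rcases (hB x).1 hx with h1 | h1 <;> rcases (hB y).1 hy with h2 | h2
      · rw [hcb x h1, hcb y h2]
        exact hc12 x y h1 h2 hxy
      · rw [hcb x h1, hca y h2]
        have := hc11 x h1
        omega
      · rw [hca x h1, hcb y h2]
        have := hc11 y h2
        omega
      · rw [hca x h1, hca y h2]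
        have := hc22 x y h1 h2 hxy
        omega
  obtain ⟨P, hP⟩ : ∃ P : {x : V // x ∉ B} → {x : V // x ∉ B} → Prop,
    ∀ x y, P x y ↔ Relation.TransGen (Fw E r) (x : V) y := ⟨_, fun _ _ => Iff.rfl⟩
  have hPA : Asym P := by
    intro x y h1 h2
    have h3 := trans_lt ((hP _ _).1 h1)
    have h4 := trans_lt ((hP _ _).1 h2)
    omega
  have hPK : ¬ KC P (s + 1 - 1) := by
    rintro ⟨c', h1, h2⟩
    apply hR
    refine ⟨c', h1, fun x y hxy => ?_⟩
    by_cases hr : r x < r y
    · exact h2 x y ((hP _ _).2 (Relation.TransGen.single ⟨hxy, hr⟩))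
    · have h3 := reach h hxy hr
      have h4 : (y : V) ≠ x := by
        intro h5
        have hxy' : E (x : V) (y : V) := hxy
        rw [h5] at hxy'
        exact hE _ _ hxy' hxy'
      rcases Relation.reflTransGen_iff_eq_or_transGen.1 h3 with h5 | h5
      · exact absurd h5.symm h4
      · exact (h2 y x ((hP _ _).2 h5)).symm
  obtain ⟨x, _, hx⟩ := gallai_roy hPA (by omega : 1 ≤ s + 1) hPK
  have hxB : ∀ i, ¬ (LO E r (x i)).card < b ∧ ¬ (EI E r (x i)).card < a := by
    intro i
    have h1 := (x i).2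
    rw [hB] at h1
    exact not_or.1 h1
  rcases Nat.eq_zero_or_pos s with hs | hs
  · subst hs
    exact ⟨x 0, x 0, not_lt.1 (hxB 0).2, not_lt.1 (hxB 0).1, rfl⟩
  · have hex : ∀ i, ∃ n, i < s → 1 ≤ n ∧ Wk (Fw E r) n (x (i + 1) : V) (x i : V) := by
      intro i
      by_cases hi : i < s
      · obtain ⟨n, h1, h2⟩ := wk_of_trans ((hP _ _).1 (hx i (by omega)))
        exact ⟨n, fun _ => ⟨h1, h2⟩⟩
      · exact ⟨0, fun h1 => absurd h1 hi⟩
    choose ℓ hℓ using hex
    obtain ⟨q, hq⟩ : ∃ q : ℕ → ℕ, q = fun i => ∑ j ∈ range i, ℓ j := ⟨_, rfl⟩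
    have hq1 : ∀ i, q (i + 1) = q i + ℓ i := by
      intro i
      rw [hq]
      exact sum_range_succ _ _
    have hmono : ∀ i, ∀ i' ≤ i, i ≤ s → q i' ≤ q i ∧ (i' < i → q i' < q i) := by
      intro i
      induction i with
      | zero =>
        intro i' hi' _
        have h0 : i' = 0 := by omega
        subst h0
        exact ⟨le_refl _, fun h => absurd h (lt_irrefl _)⟩
      | succ i ih =>
        intro i' hi' his
        have h1 := (hℓ i (by omega)).1
        rcases Nat.lt_or_eq_of_le hi' with h2 | h2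
        · have h3 := ih i' (by omega) (by omega)
          rw [hq1]
          exact ⟨by omega, fun _ => by omega⟩
        · subst h2
          exact ⟨le_refl _, fun h => absurd h (lt_irrefl _)⟩
    have hwk : ∀ i, i ≤ s → ∀ i' ≤ i, Wk (Fw E r) (q i - q i') (x i : V) (x i' : V) := by
      intro i
      induction i with
      | zero =>
        intro _ i' hi'
        have h0 : i' = 0 := by omega
        subst h0
        rw [Nat.sub_self]
        exact rfl
      | succ i ih =>
        intro his i' hi'
        rcases Nat.lt_or_eq_of_le hi' with h2 | h2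
        · have h3 := ih (by omega) i' (by omega)
          have h4 := (hmono i i' (by omega) (by omega)).1
          have e : q (i + 1) - q i' = ℓ i + (q i - q i') := by
            rw [hq1]
            omega
          rw [e]
          exact wk_add (hℓ i (by omega)).2 h3
        · subst h2
          rw [Nat.sub_self]
          exact rfl
    obtain ⟨i, hi, j, hj, hij, heq⟩ := exists_ne_map_eq_of_card_lt_of_maps_to
      (s := range (s + 1)) (t := range s) (f := fun i => q i % s)
      (by rw [card_range, card_range]; omega)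
      (fun i _ => by
        simp only [coe_range, Set.mem_Iio]
        exact Nat.mod_lt _ hs)
    rw [mem_range] at hi hj
    have key : ∀ i j, i < j → j ≤ s → q i % s = q j % s →
        ∃ u w, a ≤ (EI E r u).card ∧ b ≤ (LO E r w).card ∧ Wk (Fw E r) s u w := by
      intro i j hij hj heq
      have h1 := (hmono j i hij.le hj).2 hij
      have h2 := hwk j hj i hij.le
      obtain ⟨m, hm⟩ := (Nat.modEq_iff_dvd' h1.le).1 heq
      have hm0 : m ≠ 0 := by
        rintro rfl
        omega
      obtain ⟨m', rfl⟩ := Nat.exists_eq_succ_of_ne_zero hm0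
      rw [hm] at h2
      obtain ⟨u, w, hu, hw, huw⟩ := wk_mult (P := fun z => a ≤ (EI E r z).card)
        (Q := fun z => b ≤ (LO E r z).card)
        (fun z hz => not_lt.1 (hdis z (not_le.1 hz))) m' h2 (not_lt.1 (hxB j).2)
        (not_lt.1 (hxB i).1)
      exact ⟨u, w, hu, hw, huw⟩
    rcases Nat.lt_or_gt_of_ne hij with h1 | h1
    · exact key i j h1 (by omega) heq
    · exact key j i h1 (by omega) heq.symm

end

end Pool.Agent.Work.MP_fcea8e_co.Broom
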