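import Pool.Agent.Work.MP_fcea8e_co.Broom.Crit
import Pool.Agent.Work.MP_fcea8e_co.Dom.Degen
import Pool.Agent.Work.MP_fcea8e_co.Dom.Desc
import Pool.Agent.Work.MP_fcea8e_co.Dom.Stack

/-!
Double brooms.
-/

set_option autoImplicit false

namespace Pool.Agent.Work.MP_fcea8e_co.Broom

open Finset Pool.Agent.Work.MP_fcea8e_co.Dom

/-- The arcs of the double broom: `a` in-leaves at the first vertex of a directed path with `s` arcs,
`b` out-leaves at its last vertex. -/
def dbAdj (a s b : ℕ) : Fin a ⊕ (Fin (s + 1) ⊕ Fin b) → Fin a ⊕ (Fin (s + 1) ⊕ Fin b) → Prop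
  | .inl _, .inr (.inl j) => (j : ℕ) = 0
  | .inr (.inl i), .inr (.inl j) => (j : ℕ) = i + 1
  | .inr (.inl i), .inr (.inr _) => (i : ℕ) = s
  | _, _ => False

/-- the double broom -/
def doubleBroom (a s b : ℕ) : Digraph (Fin a ⊕ (Fin (s + 1) ⊕ Fin b)) := ⟨dbAdj a s b⟩

theorem mem_EI {V : Type} [Fintype V] {E : V → V → Prop} {r : V → ℕ} {x y : V} :
    y ∈ EI E r x ↔ E y x ∧ r y < r x := by
  classical
  rw [EI, mem_filter]
  exact ⟨fun h => h.2, fun h => ⟨mem_univ _, h⟩⟩

theorem mem_LO {V : Type} [Fintype V] {E : V → V → Prop} {r : V → ℕ} {x y : V} :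
    y ∈ LO E r x ↔ E x y ∧ r x < r y := by
  classical
  rw [LO, mem_filter]
  exact ⟨fun h => h.2, fun h => ⟨mem_univ _, h⟩⟩

/-- the upper bound for digraphs of large minimum degree -/
theorem broom_crit {V : Type} [Fintype V] {E : V → V → Prop} (hE : Asym E) {a b s k : ℕ}
    (hk : k = (max 1 (2 * a) - 1) + (max 1 (2 * b) - 1) + s) (hK : ¬ KC E k)
    (hdeg : ∀ x, k ≤ (outs E univ x).card + (ins E univ x).card) :
    ∃ f : Fin a ⊕ (Fin (s + 1) ⊕ Fin b) → V, Function.Injective f ∧
      ∀ x y, dbAdj a s b x y → E (f x) (f y) := by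
  classical
  obtain ⟨r, hr⟩ := exists_med E
  obtain ⟨u, w, hu, hw, huw⟩ := exists_walk hE hr hk hK hdeg
  obtain ⟨p, hp0, hps, hp⟩ := wk_seq huw
  obtain ⟨l⟩ : Nonempty (Fin a ↪ (EI E r u)) := Function.Embedding.nonempty_of_card_le (by
    rw [Fintype.card_fin, Fintype.card_coe]; exact hu)
  obtain ⟨m⟩ : Nonempty (Fin b ↪ (LO E r w)) := Function.Embedding.nonempty_of_card_le (by
    rw [Fintype.card_fin, Fintype.card_coe]; exact hw)
  have hl : ∀ i, E (l i : V) u ∧ r (l i : V) < r u := by
    intro i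
    exact mem_EI.1 (l i).2
  have hm : ∀ i, E w (m i : V) ∧ r w < r (m i : V) := by
    intro i
    exact mem_LO.1 (m i).2
  have hmono : ∀ j, j ≤ s → ∀ i, i < j → r (p i) < r (p j) := by
    intro j
    induction j with
    | zero => intro _ i hi; exact absurd hi (Nat.not_lt_zero _)
    | succ j ih =>
      intro hj i hi
      have h1 := (hp j (by omega)).2
      rcases Nat.lt_or_eq_of_le (Nat.le_of_lt_succ hi) with h2 | h2
      · exact (ih (by omega) i h2).trans h1
      · rw [h2]
        exact h1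
  have hle1 : ∀ j, j ≤ s → r u ≤ r (p j) := by
    intro j hj
    rcases Nat.eq_zero_or_pos j with h | h
    · rw [h, hp0]
    · rw [← hp0]
      exact (hmono j hj 0 h).le
  have hle2 : ∀ j, j ≤ s → r (p j) ≤ r w := by
    intro j hj
    rcases Nat.lt_or_eq_of_le hj with h | h
    · rw [← hps]
      exact (hmono s (le_refl _) j h).le
    · rw [h, hps]
  have hlp : ∀ i (j : Fin (s + 1)), (l i : V) ≠ p j := by
    intro i j h
    have h1 := (hl i).2
    rw [h] at h1
    exact absurd h1 (not_lt.2 (hle1 j (Nat.le_of_lt_succ j.2)))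
  have hpm : ∀ (j : Fin (s + 1)) i, p j ≠ (m i : V) := by
    intro j i h
    have h1 := (hm i).2
    rw [← h] at h1
    exact absurd h1 (not_lt.2 (hle2 j (Nat.le_of_lt_succ j.2)))
  have hlm : ∀ i i', (l i : V) ≠ (m i' : V) := by
    intro i i' h
    have h1 := (hl i).2
    have h2 := (hm i').2
    have h3 := (hle1 0 (Nat.zero_le _)).trans (hle2 0 (Nat.zero_le _))
    rw [h] at h1
    omega
  refine ⟨Sum.elim (fun i => (l i : V)) (Sum.elim (fun j => p (j : ℕ)) (fun i => (m i : V))),
    ?_, ?_⟩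
  · rintro (i | i | i) (j | j | j) hij
    · exact congrArg Sum.inl (l.injective (Subtype.ext hij))
    · exact absurd hij (hlp i j)
    · exact absurd hij (hlm i j)
    · exact absurd hij.symm (hlp j i)
    · have hij' : p (i : ℕ) = p (j : ℕ) := hij
      have h1 := Nat.le_of_lt_succ i.2
      have h2 := Nat.le_of_lt_succ j.2
      have h3 : (i : ℕ) = j := by
        by_contra hne
        rcases Nat.lt_or_gt_of_ne hne with h | h
        · have := hmono j h2 i h
          rw [hij'] at this
          exact lt_irrefl _ this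
        · have := hmono i h1 j h
          rw [hij'] at this
          exact lt_irrefl _ this
      rw [Fin.ext h3]
    · exact absurd hij (hpm i j)
    · exact absurd hij.symm (hlm j i)
    · exact absurd hij.symm (hpm j i)
    · exact congrArg (fun z => Sum.inr (Sum.inr z)) (m.injective (Subtype.ext hij))
  · rintro (i | i | i) (j | j | j) hij
    · exact hij.elim
    · have hj : (j : ℕ) = 0 := hij
      simp only [Sum.elim_inl, Sum.elim_inr]
      rw [hj, hp0]
      exact (hl i).1
    · exact hij.elim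
    · exact hij.elim
    · have hj : (j : ℕ) = i + 1 := hij
      simp only [Sum.elim_inl, Sum.elim_inr]
      rw [hj]
      exact (hp i (by have := j.2; omega)).1
    · have hj : (i : ℕ) = s := hij
      simp only [Sum.elim_inl, Sum.elim_inr]
      rw [hj, hps]
      exact (hm j).1
    · exact hij.elim
    · exact hij.elim
    · exact hij.elim

theorem broom_upper {V : Type} [Fintype V] {E : V → V → Prop} (hE : Asym E) {a b s : ℕ}
    (hK : ¬ KC E ((max 1 (2 * a) - 1) + (max 1 (2 * b) - 1) + s)) :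
    ∃ f : Fin a ⊕ (Fin (s + 1) ⊕ Fin b) → V, Function.Injective f ∧
      ∀ x y, dbAdj a s b x y → E (f x) (f y) := by
  obtain ⟨X, h1, h2⟩ := exists_critical hE hK
  obtain ⟨f, hf1, hf2⟩ := broom_crit (E := fun a b : {x : V // x ∈ X} => E a b)
    (fun _ _ h3 h4 => hE _ _ h3 h4) rfl h1 h2
  exact ⟨fun x => (f x : V), Subtype.val_injective.comp hf1, fun x y hxy => hf2 x y hxy⟩

/-- regular tournaments, also for `a = 0` -/
theorem reg' (a : ℕ) : ∃ E : Fin (max 1 (2 * a) - 1) → Fin (max 1 (2 * a) - 1) → Prop,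
    Asym E ∧ Tour E ∧ (∀ x, (outs E univ x).card < a) ∧ ∀ x, (ins E univ x).card < a := by
  rcases Nat.eq_zero_or_pos a with h | h
  · subst h
    exact ⟨fun _ _ => False, fun _ _ h => h.elim, fun x => x.elim0, fun x => x.elim0,
      fun x => x.elim0⟩
  · have e : max 1 (2 * a) - 1 = 2 * a - 1 := by omega
    rw [e]
    exact reg_tour a h

/-- the tournament without the double broom -/
theorem broom_lower (a s b : ℕ) :
    ∃ E : (Fin (max 1 (2 * a) - 1) ⊕ Fin s) ⊕ Fin (max 1 (2 * b) - 1) →
      (Fin (max 1 (2 * a) - 1) ⊕ Fin s) ⊕ Fin (max 1 (2 * b) - 1) → Prop,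
      Asym E ∧ Tour E ∧ ¬ ∃ f : Fin a ⊕ (Fin (s + 1) ⊕ Fin b) →
        (Fin (max 1 (2 * a) - 1) ⊕ Fin s) ⊕ Fin (max 1 (2 * b) - 1), Function.Injective f ∧
        ∀ x y, dbAdj a s b x y → E (f x) (f y) := by
  classical
  obtain ⟨E1, hA1, hT1, _, hi1⟩ := reg' a
  obtain ⟨E2, hA2, hT2, ho2, _⟩ := reg' b
  have hA0 : Asym (fun x y : Fin s => x < y) := fun x y h1 h2 => absurd h1 (lt_asymm h2)
  have hT0 : Tour (fun x y : Fin s => x < y) := fun x y h => lt_or_gt_of_ne h
  refine ⟨stk (stk E1 (fun x y : Fin s => x < y)) E2, stk_asym (stk_asym hA1 hA0) hA2,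
    stk_tour (stk_tour hT1 hT0) hT2, ?_⟩
  rintro ⟨f, hf, hfE⟩
  -- the first vertex of the path is not in the first part
  have h0 : ∀ x, f (Sum.inr (Sum.inl 0)) ≠ Sum.inl (Sum.inl x) := by
    intro x hx
    have h1 : (univ : Finset (Fin a)).image (fun i => f (Sum.inl i)) ⊆
        (ins E1 univ x).image (fun y => Sum.inl (Sum.inl y)) := by
      intro y hy
      obtain ⟨i, _, rfl⟩ := mem_image.1 hy
      have h2 := hfE (Sum.inl i) (Sum.inr (Sum.inl 0)) (show ((0 : Fin (s + 1)) : ℕ) = 0 from rfl)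
      rw [hx] at h2
      rcases h3 : f (Sum.inl i) with (z | z) | z
      · rw [h3] at h2
        refine mem_image.2 ⟨z, ?_, rfl⟩
        rw [ins, mem_filter]
        exact ⟨mem_univ _, h2⟩
      · rw [h3] at h2
        exact h2.elim
      · rw [h3] at h2
        exact h2.elim
    have h2 := (card_le_card h1).trans card_image_le
    rw [card_image_of_injective _ (fun i j h => Sum.inl_injective (hf h)), card_univ,
      Fintype.card_fin] at h2
    exact absurd (hi1 x) (not_lt.2 h2)
  -- the last vertex of the path is not in the last part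
  have hs : ∀ x, f (Sum.inr (Sum.inl (Fin.last s))) ≠ Sum.inr x := by
    intro x hx
    have h1 : (univ : Finset (Fin b)).image (fun i => f (Sum.inr (Sum.inr i))) ⊆
        (outs E2 univ x).image (fun y => Sum.inr y) := by
      intro y hy
      obtain ⟨i, _, rfl⟩ := mem_image.1 hy
      have h2 := hfE (Sum.inr (Sum.inl (Fin.last s))) (Sum.inr (Sum.inr i))
        (show ((Fin.last s : Fin (s + 1)) : ℕ) = s from rfl)
      rw [hx] at h2
      rcases h3 : f (Sum.inr (Sum.inr i)) with z | z
      · rw [h3] at h2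
        exact h2.elim
      · rw [h3] at h2
        refine mem_image.2 ⟨z, ?_, rfl⟩
        rw [outs, mem_filter]
        exact ⟨mem_univ _, h2⟩
    have h2 := (card_le_card h1).trans card_image_le
    rw [card_image_of_injective _ (fun i j h =>
      Sum.inr_injective (Sum.inr_injective (hf h))), card_univ, Fintype.card_fin] at h2
    exact absurd (ho2 x) (not_lt.2 h2)
  have hstep : ∀ i (hi : i + 1 < s + 1), stk (stk E1 (fun x y : Fin s => x < y)) E2
      (f (Sum.inr (Sum.inl ⟨i, by omega⟩))) (f (Sum.inr (Sum.inl ⟨i + 1, hi⟩))) :=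
    fun i hi => hfE _ _ (show i + 1 = i + 1 from rfl)
  have hup : ∀ i (hi : i < s + 1), ∀ x, f (Sum.inr (Sum.inl ⟨i, hi⟩)) ≠ Sum.inl (Sum.inl x) := by
    intro i
    induction i with
    | zero => intro hi; exact h0
    | succ i ih =>
      intro hi x hx
      have h1 := hstep i hi
      have h2 := ih (by omega)
      rw [hx] at h1
      rcases h3 : f (Sum.inr (Sum.inl ⟨i, by omega⟩)) with (z | z) | z
      · exact h2 z h3
      · rw [h3] at h1
        exact h1.elim
      · rw [h3] at h1
        exact h1.elim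
  have hdown : ∀ d i (hi : i < s + 1), i + d = s → ∀ x, f (Sum.inr (Sum.inl ⟨i, hi⟩)) ≠
      Sum.inr x := by
    intro d
    induction d with
    | zero =>
      intro i hi his x hx
      have e : (⟨i, hi⟩ : Fin (s + 1)) = Fin.last s := Fin.ext (by simpa using his)
      rw [e] at hx
      exact hs x hx
    | succ d ih =>
      intro i hi his x hx
      have h1 := hstep i (by omega)
      have h2 := ih (i + 1) (by omega) (by omega)
      rw [hx] at h1
      rcases h3 : f (Sum.inr (Sum.inl ⟨i + 1, by omega⟩)) with z | z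
      · rw [h3] at h1
        exact h1.elim
      · exact h2 z h3
  have hmid : ∀ i : Fin (s + 1), ∃ z : Fin s, f (Sum.inr (Sum.inl i)) = Sum.inl (Sum.inr z) := by
    intro i
    rcases h3 : f (Sum.inr (Sum.inl i)) with (z | z) | z
    · exact absurd h3 (hup i i.2 z)
    · exact ⟨z, rfl⟩
    · exact absurd h3 (hdown (s - i) i i.2 (by have := i.2; omega) z)
  choose g hg using hmid
  have hginj : Function.Injective g := by
    intro i j hij
    have h1 : f (Sum.inr (Sum.inl i)) = f (Sum.inr (Sum.inl j)) := by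
      rw [hg i, hg j, hij]
    exact Sum.inl_injective (Sum.inr_injective (hf h1))
  have h1 := Fintype.card_le_of_injective g hginj
  rw [Fintype.card_fin, Fintype.card_fin] at h1
  omega

theorem num_of {κ : Type} (T : Digraph κ) {N : ℕ} (hN : 1 ≤ N)
    (h1 : ∀ (V : Type) [Fintype V] (E : V → V → Prop), Asym E → ¬ KC E (N - 1) →
      Contains T ⟨E⟩)
    (h2 : ∃ (V : Type) (_ : Fintype V) (E : V → V → Prop), Fintype.card V = N - 1 ∧ Asym E ∧
      Tour E ∧ ¬ Contains T ⟨E⟩) : tNum T = N ∧ cNum T = N := by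
  have hc : ∀ (m : ℕ) (G : Digraph (Fin m)), Oriented G →
      (N : ℕ∞) ≤ (SimpleGraph.fromRel G.Adj).chromaticNumber → Contains T G := by
    intro m G hG hχ
    exact h1 _ G.Adj hG ((chi_iff G.Adj hG N).1 hχ (N - 1) (by omega))
  have ht : ∀ n, (∀ (G : Digraph (Fin n)), Oriented G →
      (∀ a b, a ≠ b → G.Adj a b ∨ G.Adj b a) → Contains T G) → N ≤ n := by
    intro n hn
    by_contra hlt
    obtain ⟨V, hV, E, hcard, hA, hT, hno⟩ := h2
    obtain ⟨e⟩ : Nonempty (Fin n ↪ V) := Function.Embedding.nonempty_of_card_le (by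
      rw [Fintype.card_fin, hcard]; omega)
    obtain ⟨f, hf, hfE⟩ := hn ⟨fun a b => E (e a) (e b)⟩ (fun a b h3 h4 => hA _ _ h3 h4)
      (fun a b hab => hT _ _ (fun h3 => hab (e.injective h3)))
    exact hno ⟨fun x => e (f x), e.injective.comp hf, hfE⟩
  have htour : ∀ {n : ℕ} (G : Digraph (Fin n)), Oriented G →
      (∀ a b, a ≠ b → G.Adj a b ∨ G.Adj b a) →
      (n : ℕ∞) ≤ (SimpleGraph.fromRel G.Adj).chromaticNumber := by
    intro n G hG hT
    rw [chi_iff G.Adj hG]
    intro k hk hkc
    have h3 := tour_kc (E := G.Adj) hT hkc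
    rw [Fintype.card_fin] at h3
    omega
  constructor
  · apply le_antisymm
    · exact Nat.sInf_le (fun G hG hT => hc N G hG (htour G hG hT))
    · exact ht _ (Nat.sInf_mem (s := {n : ℕ | ∀ G : Digraph (Fin n), Oriented G →
        (∀ a b, a ≠ b → G.Adj a b ∨ G.Adj b a) → Contains T G})
        ⟨N, fun G hG hT => hc N G hG (htour G hG hT)⟩)
  · apply le_antisymm
    · exact Nat.sInf_le (fun m G hG hχ => hc m G hG hχ)
    · have hmem := Nat.sInf_mem (s := {n : ℕ | ∀ (m : ℕ) (G : Digraph (Fin m)), Oriented G →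
        (n : ℕ∞) ≤ (SimpleGraph.fromRel G.Adj).chromaticNumber → Contains T G})
        ⟨N, fun m G hG hχ => hc m G hG hχ⟩
      exact ht _ (fun G hG hT => hmem _ G hG (htour G hG hT))

theorem broom_num (a s b : ℕ) :
    tNum (doubleBroom a s b) = max 1 (2 * a) + max 1 (2 * b) + s - 1 ∧
    cNum (doubleBroom a s b) = max 1 (2 * a) + max 1 (2 * b) + s - 1 := by
  refine num_of _ (by omega) ?_ ?_
  · intro V _ E hE hK
    have e : max 1 (2 * a) + max 1 (2 * b) + s - 1 - 1 =
        (max 1 (2 * a) - 1) + (max 1 (2 * b) - 1) + s := by omega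
    rw [e] at hK
    exact broom_upper hE hK
  · obtain ⟨E, hA, hT, hno⟩ := broom_lower a s b
    refine ⟨_, inferInstance, E, ?_, hA, hT, hno⟩
    rw [Fintype.card_sum, Fintype.card_sum, Fintype.card_fin, Fintype.card_fin, Fintype.card_fin]
    omega

end Pool.Agent.Work.MP_fcea8e_co.Broom
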