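import Pool.Agent.Work.MP_fcea8e_co.Dom.Defs

/-!
Median functions: `r : V → ℕ` with the least number of arcs `a → b` with `r b ≤ r a`.
-/

set_option autoImplicit false

namespace Pool.Agent.Work.MP_fcea8e_co.Broom

open Finset Pool.Agent.Work.MP_fcea8e_co.Dom

section

variable {V : Type} [Fintype V] (E : V → V → Prop) (r : V → ℕ)

/-- forward arcs -/
def Fw (a b : V) : Prop := E a b ∧ r a < r b

open Classical in
/-- arcs which are not forward -/
noncomputable def bad : Finset (V × V) := univ.filter (fun p => E p.1 p.2 ∧ ¬ r p.1 < r p.2)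

/-- median functions -/
def Med : Prop := ∀ r' : V → ℕ, (bad E r).card ≤ (bad E r').card

open Classical in
/-- later out-neighbours -/
noncomputable def LO (x : V) : Finset V := univ.filter (fun y => E x y ∧ r x < r y)

open Classical in
/-- later in-neighbours -/
noncomputable def LI (x : V) : Finset V := univ.filter (fun y => E y x ∧ r x < r y)

open Classical in
/-- earlier out-neighbours -/
noncomputable def EO (x : V) : Finset V := univ.filter (fun y => E x y ∧ r y < r x)

open Classical in
/-- earlier in-neighbours -/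
noncomputable def EI (x : V) : Finset V := univ.filter (fun y => E y x ∧ r y < r x)

end

variable {V : Type} [Fintype V] {E : V → V → Prop} {r : V → ℕ}

theorem mem_bad (p : V × V) : p ∈ bad E r ↔ E p.1 p.2 ∧ ¬ r p.1 < r p.2 := by
  classical
  rw [bad, mem_filter]
  exact ⟨fun h => h.2, fun h => ⟨mem_univ _, h⟩⟩

theorem exists_med (E : V → V → Prop) : ∃ r : V → ℕ, Med E r := by
  classical
  have hex : ∃ n, ∃ r : V → ℕ, (bad E r).card = n := ⟨_, fun _ => 0, rfl⟩
  obtain ⟨r, hr⟩ := Nat.find_spec hex
  refine ⟨r, fun r' => ?_⟩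
  rw [hr]
  exact Nat.find_min' hex ⟨r', rfl⟩

theorem le_big (r : V → ℕ) (x : V) : r x < ∑ y, r y + 1 :=
  Nat.lt_succ_of_le (single_le_sum (f := r) (fun _ _ => Nat.zero_le _) (mem_univ x))

theorem LI_le_LO (h : Med E r) (x : V) : (LI E r x).card ≤ (LO E r x).card := by
  classical
  obtain ⟨M, hM⟩ : ∃ M, M = ∑ y, r y + 1 := ⟨_, rfl⟩
  have hbig : ∀ y, r y < M := fun y => by rw [hM]; exact le_big r y
  have h1 := h (Function.update r x M)
  have h2 : bad E (Function.update r x M) ∪ (LI E r x).image (fun y => (y, x)) ⊆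
      bad E r ∪ (LO E r x).image (fun y => (x, y)) := by
    rintro ⟨a, b⟩ hp
    rw [mem_union] at hp ⊢
    rcases hp with hp | hp
    · rw [mem_bad] at hp
      obtain ⟨hp1, hp2⟩ := hp
      simp only at hp1 hp2
      by_cases hax : a = x
      · subst hax
        by_cases hr : r a < r b
        · right
          refine mem_image.2 ⟨b, ?_, rfl⟩
          rw [LO, mem_filter]
          exact ⟨mem_univ _, hp1, hr⟩
        · left
          rw [mem_bad]
          exact ⟨hp1, hr⟩
      · by_cases hbx : b = x
        · subst hbx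
          rw [Function.update_self, Function.update_of_ne hax] at hp2
          exact absurd (hbig a) hp2
        · rw [Function.update_of_ne hbx, Function.update_of_ne hax] at hp2
          left
          rw [mem_bad]
          exact ⟨hp1, hp2⟩
    · left
      obtain ⟨y, hy, hy2⟩ := mem_image.1 hp
      rw [LI, mem_filter] at hy
      rw [← hy2, mem_bad]
      exact ⟨hy.2.1, not_lt.2 hy.2.2.le⟩
  have h3 : Disjoint (bad E (Function.update r x M)) ((LI E r x).image (fun y => (y, x))) := by
    rw [Finset.disjoint_left]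
    intro p hp hp2
    obtain ⟨y, hy, hy2⟩ := mem_image.1 hp2
    rw [LI, mem_filter] at hy
    rw [← hy2, mem_bad] at hp
    have hyx : y ≠ x := by
      intro hyx
      rw [hyx] at hy
      exact lt_irrefl _ hy.2.2
    apply hp.2
    simp only
    rw [Function.update_self, Function.update_of_ne hyx]
    exact hbig y
  have h4 := card_le_card h2
  rw [card_union_of_disjoint h3] at h4
  have h5 := card_union_le (bad E r) ((LO E r x).image (fun y => (x, y)))
  rw [card_image_of_injective _ (fun y y' h => (Prod.mk.inj h).1)] at h4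
  have h6 : ((LO E r x).image (fun y => (x, y))).card ≤ (LO E r x).card := card_image_le
  omega

theorem EO_le_EI (h : Med E r) (x : V) : (EO E r x).card ≤ (EI E r x).card := by
  classical
  obtain ⟨r', hr'⟩ : ∃ r' : V → ℕ, r' = fun y => if y = x then 0 else r y + 1 := ⟨_, rfl⟩
  have hrx : r' x = 0 := by rw [hr']; simp
  have hry : ∀ y, y ≠ x → r' y = r y + 1 := fun y hy => by rw [hr']; simp [hy]
  have h1 := h r'
  have h2 : bad E r' ∪ (EO E r x).image (fun y => (x, y)) ⊆
      bad E r ∪ (EI E r x).image (fun y => (y, x)) := by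
    rintro ⟨a, b⟩ hp
    rw [mem_union] at hp ⊢
    rcases hp with hp | hp
    · rw [mem_bad] at hp
      obtain ⟨hp1, hp2⟩ := hp
      simp only at hp1 hp2
      by_cases hbx : b = x
      · subst hbx
        by_cases hr : r a < r b
        · right
          refine mem_image.2 ⟨a, ?_, rfl⟩
          rw [EI, mem_filter]
          exact ⟨mem_univ _, hp1, hr⟩
        · left
          rw [mem_bad]
          exact ⟨hp1, hr⟩
      · by_cases hax : a = x
        · subst hax
          rw [hrx, hry b hbx] at hp2
          exact absurd (Nat.succ_pos _) hp2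
        · rw [hry a hax, hry b hbx] at hp2
          left
          rw [mem_bad]
          exact ⟨hp1, fun h7 => hp2 (Nat.succ_lt_succ h7)⟩
    · left
      obtain ⟨y, hy, hy2⟩ := mem_image.1 hp
      rw [EO, mem_filter] at hy
      rw [← hy2, mem_bad]
      exact ⟨hy.2.1, not_lt.2 hy.2.2.le⟩
  have h3 : Disjoint (bad E r') ((EO E r x).image (fun y => (x, y))) := by
    rw [Finset.disjoint_left]
    intro p hp hp2
    obtain ⟨y, hy, hy2⟩ := mem_image.1 hp2
    rw [EO, mem_filter] at hy
    rw [← hy2, mem_bad] at hp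
    have hyx : y ≠ x := by
      intro hyx
      rw [hyx] at hy
      exact lt_irrefl _ hy.2.2
    apply hp.2
    simp only
    rw [hrx, hry y hyx]
    exact Nat.succ_pos _
  have h4 := card_le_card h2
  rw [card_union_of_disjoint h3] at h4
  have h5 := card_union_le (bad E r) ((EI E r x).image (fun y => (y, x)))
  rw [card_image_of_injective _ (fun y y' h => (Prod.mk.inj h).2)] at h4
  have h6 : ((EI E r x).image (fun y => (y, x))).card ≤ (EI E r x).card := card_image_le
  omega

theorem reach (h : Med E r) {u w : V} (huw : E u w) (hr : ¬ r u < r w) :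
    Relation.ReflTransGen (Fw E r) w u := by
  classical
  by_contra hno
  obtain ⟨M, hM⟩ : ∃ M, M = ∑ y, r y + 1 := ⟨_, rfl⟩
  have hbig : ∀ y, r y < M := fun y => by rw [hM]; exact le_big r y
  obtain ⟨r', hr'⟩ : ∃ r' : V → ℕ, r' = fun z =>
    if Relation.ReflTransGen (Fw E r) w z then r z + M else r z := ⟨_, rfl⟩
  have hin : ∀ z, Relation.ReflTransGen (Fw E r) w z → r' z = r z + M := by
    intro z hz
    rw [hr']
    simp only [hz, if_true]
  have hout : ∀ z, ¬ Relation.ReflTransGen (Fw E r) w z → r' z = r z := by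
    intro z hz
    rw [hr']
    simp only [hz, if_false]
  have h1 : bad E r' ⊆ bad E r := by
    rintro ⟨a, b⟩ hp
    rw [mem_bad] at hp ⊢
    obtain ⟨hp1, hp2⟩ := hp
    simp only at hp1 hp2 ⊢
    refine ⟨hp1, fun hlt => hp2 ?_⟩
    by_cases ha : Relation.ReflTransGen (Fw E r) w a
    · have hb : Relation.ReflTransGen (Fw E r) w b := ha.tail ⟨hp1, hlt⟩
      rw [hin a ha, hin b hb]
      omega
    · by_cases hb : Relation.ReflTransGen (Fw E r) w b
      · rw [hout a ha, hin b hb]
        have := hbig a
        omega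
      · rw [hout a ha, hout b hb]
        exact hlt
  have h2 : bad E r' ⊂ bad E r := by
    refine ⟨h1, fun h3 => ?_⟩
    have h4 : ((u, w) : V × V) ∈ bad E r := by
      rw [mem_bad]
      exact ⟨huw, hr⟩
    have h5 := h3 h4
    rw [mem_bad] at h5
    apply h5.2
    simp only
    rw [hout u hno, hin w Relation.ReflTransGen.refl]
    have := hbig u
    omega
  exact absurd (h r') (not_le.2 (card_lt_card h2))

theorem r_ne (hE : Asym E) (h : Med E r) {u w : V} (huw : E u w) : r u ≠ r w := by
  intro he
  have h1 := reach h huw (by omega)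
  have h2 : ∀ z, Relation.ReflTransGen (Fw E r) w z → z = w ∨ r w < r z := by
    intro z hz
    induction hz with
    | refl => exact Or.inl rfl
    | tail _ hbc ih =>
      right
      rcases ih with ih | ih
      · rw [← ih]
        exact hbc.2
      · exact ih.trans hbc.2
  rcases h2 u h1 with h3 | h3
  · rw [h3] at huw
    exact hE _ _ huw huw
  · omega

/-- walks with `n` forward arcs -/
def Wk {V : Type} (F : V → V → Prop) : ℕ → V → V → Prop
  | 0, a, b => a = b
  | n + 1, a, b => ∃ c, Wk F n a c ∧ F c b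

theorem wk_add {V : Type} {F : V → V → Prop} {m : ℕ} : ∀ {n : ℕ} {a b c : V}, Wk F m a b →
    Wk F n b c → Wk F (m + n) a c
  | 0, _, _, _, h1, h2 => by
    have h3 : _ = _ := h2
    rw [← h3]
    exact h1
  | n + 1, _, _, _, h1, ⟨d, h2, h3⟩ => ⟨d, wk_add h1 h2, h3⟩

theorem wk_split {V : Type} {F : V → V → Prop} {m : ℕ} : ∀ {n : ℕ} {a c : V},
    Wk F (m + n) a c → ∃ b, Wk F m a b ∧ Wk F n b c
  | 0, _, c, h => ⟨c, h, rfl⟩
  | n + 1, _, _, ⟨d, h2, h3⟩ => by
    obtain ⟨b, h4, h5⟩ := wk_split h2
    exact ⟨b, h4, d, h5, h3⟩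

theorem wk_of_trans {V : Type} {F : V → V → Prop} {a b : V} (h : Relation.TransGen F a b) :
    ∃ n, 1 ≤ n ∧ Wk F n a b := by
  induction h with
  | single h => exact ⟨1, le_refl _, a, rfl, h⟩
  | tail _ hbc ih =>
    obtain ⟨n, h1, h2⟩ := ih
    exact ⟨n + 1, by omega, _, h2, hbc⟩

/-- the walk as a sequence -/
theorem wk_seq {V : Type} {F : V → V → Prop} : ∀ {n : ℕ} {a b : V}, Wk F n a b →
    ∃ p : ℕ → V, p 0 = a ∧ p n = b ∧ ∀ i, i < n → F (p i) (p (i + 1))
  | 0, a, b, h => ⟨fun _ => a, rfl, h, fun i hi => absurd hi (Nat.not_lt_zero i)⟩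
  | n + 1, a, b, ⟨c, h1, h2⟩ => by
    obtain ⟨p, hp0, hpn, hp⟩ := wk_seq h1
    refine ⟨fun i => if i ≤ n then p i else b, ?_, ?_, ?_⟩
    · simp [hp0]
    · simp
    · intro i hi
      rcases Nat.lt_or_eq_of_le (Nat.le_of_lt_succ hi) with h | h
      · have h3 : i + 1 ≤ n := h
        simp only [h.le, h3, if_true]
        exact hp i h
      · subst h
        simp only [le_refl, if_true, Nat.not_succ_le_self, if_false]
        rw [hpn]
        exact h2

end Pool.Agent.Work.MP_fcea8e_co.Broom
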